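import Pool.Agent.W601.SQ.Stm

set_option autoImplicit false
open scoped Classical Cardinal
open Filter Topology

namespace Pool.Agent.W12.SQ

open Pool.Agent.W601.SQ

theorem bdd_of_ev (u : ℕ → ℤ) (h : ∃ c : ℤ, ∀ᶠ j in atTop, u j = c) : ∃ C : ℤ, ∀ j, |u j| ≤ C := by
  obtain ⟨c, hc⟩ := h
  obtain ⟨N, hN⟩ := eventually_atTop.1 hc
  refine ⟨|c| + ∑ i ∈ Finset.range N, |u i|, fun j => ?_⟩
  have h0 : 0 ≤ ∑ i ∈ Finset.range N, |u i| := Finset.sum_nonneg fun i _ => abs_nonneg _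
  by_cases hj : N ≤ j
  · rw [hN j hj]
    linarith
  · have h1 : |u j| ≤ ∑ i ∈ Finset.range N, |u i| :=
      Finset.single_le_sum (f := fun i => |u i|) (fun i _ => abs_nonneg _)
        (Finset.mem_range.2 (not_le.1 hj))
    have h2 := abs_nonneg c
    linarith

theorem claim (s : ℕ → (ℝ →₀ ℤ)) (hs : Function.Injective s)
    (h : ∀ β, ∃ c : ℤ, ∀ᶠ j in atTop, s j β = c) (F : Finset ℝ) (N : ℕ) :
    ∃ n, N ≤ n ∧ ∃ a, a ∉ F ∧ s n a ≠ 0 := by
  by_contra hcon
  push Not at hcon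
  choose c hc using h
  have h1 : ∀ᶠ j in atTop, ∀ a ∈ F, s j a = c a := by
    rw [Filter.eventually_all_finset]
    intro a _
    exact hc a
  obtain ⟨M, hM⟩ := eventually_atTop.1 h1
  have h2 : s (max M N) = s (max M N + 1) := by
    ext a
    by_cases ha : a ∈ F
    · rw [hM _ (le_max_left _ _) a ha, hM _ ((le_max_left _ _).trans (Nat.le_succ _)) a ha]
    · rw [hcon _ (le_max_right _ _) a ha, hcon _ ((le_max_right _ _).trans (Nat.le_succ _)) a ha]
  have h3 := hs h2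
  omega

theorem subb2 : S_SUBB2 := by
  intro s hs h
  obtain ⟨f, hf, hr⟩ := exists_seq_of_forall_finset_exists
    (fun x : ℕ × ℝ => s x.1 x.2 ≠ 0)
    (fun x y : ℕ × ℝ => x.1 < y.1 ∧ s x.1 y.2 = 0)
    (by
      intro S _
      obtain ⟨n, hn, a, ha, hna⟩ := claim s hs h (S.biUnion fun x => (s x.1).support)
        (S.sup (fun x => x.1) + 1)
      refine ⟨(n, a), hna, fun x hx => ⟨?_, ?_⟩⟩
      · have h1 : x.1 ≤ S.sup (fun x => x.1) := Finset.le_sup (f := fun x : ℕ × ℝ => x.1) hx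
        show x.1 < n
        omega
      · by_contra hne
        exact ha (Finset.mem_biUnion.2 ⟨x, hx, Finsupp.mem_support_iff.2 hne⟩))
  refine ⟨fun j => (f j).1, fun i j hij => (hr i j hij).1, fun β => ?_, fun j => (f j).2, hf,
    fun i j hij => (hr i j hij).2⟩
  obtain ⟨C, hC⟩ := bdd_of_ev (fun n => s n β) (h β)
  exact ⟨C, fun j => hC _⟩

end Pool.Agent.W12.SQ
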